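import Mathlib

set_option autoImplicit false

open PowerSeries Metric

namespace Pool.Agent.N280.QR

/-- the power series `P` converges to `f` on the disc `|q| < R` -/
def Conv (R : ℝ) (P : PowerSeries ℂ) (f : ℂ → ℂ) : Prop :=
  ∀ q : ℂ, ‖q‖ < R → HasSum (fun n => coeff n P * q ^ n) (f q)

lemma Conv.add {R : ℝ} {P Q : PowerSeries ℂ} {f g : ℂ → ℂ} (hP : Conv R P f) (hQ : Conv R Q g) :
    Conv R (P + Q) (fun q => f q + g q) := by
  intro q hq
  have := (hP q hq).add (hQ q hq)
  convert this using 2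
  rw [map_add]; ring

lemma Conv.neg {R : ℝ} {P : PowerSeries ℂ} {f : ℂ → ℂ} (hP : Conv R P f) :
    Conv R (-P) (fun q => - f q) := by
  intro q hq
  have e : (fun n => coeff n (-P) * q ^ n) = fun n => -(coeff n P * q ^ n) := by
    funext n
    rw [map_neg]; ring
  rw [e]
  exact (hP q hq).neg

lemma Conv.sub {R : ℝ} {P Q : PowerSeries ℂ} {f g : ℂ → ℂ} (hP : Conv R P f) (hQ : Conv R Q g) :
    Conv R (P - Q) (fun q => f q - g q) := by
  simpa [sub_eq_add_neg] using hP.add hQ.neg

lemma Conv.mul {R : ℝ} {P Q : PowerSeries ℂ} {f g : ℂ → ℂ} (hP : Conv R P f) (hQ : Conv R Q g) :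
    Conv R (P * Q) (fun q => f q * g q) := by
  intro q hq
  have h1 := hP q hq
  have h2 := hQ q hq
  have h3 := tsum_mul_tsum_eq_tsum_sum_antidiagonal_of_summable_norm h1.summable.norm
    h2.summable.norm
  have h4 := (summable_norm_sum_mul_antidiagonal_of_summable_norm h1.summable.norm
    h2.summable.norm).of_norm
  have h5 : (fun n => coeff n (P * Q) * q ^ n) = fun n =>
      ∑ kl ∈ Finset.HasAntidiagonal.antidiagonal n,
        (coeff kl.1 P * q ^ kl.1) * (coeff kl.2 Q * q ^ kl.2) := by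
    funext n
    rw [PowerSeries.coeff_mul, Finset.sum_mul]
    refine Finset.sum_congr rfl fun x hx => ?_
    rw [Finset.HasAntidiagonal.mem_antidiagonal] at hx
    rw [← hx, pow_add]; ring
  show HasSum _ (f q * g q)
  rw [h5, ← h1.tsum_eq, ← h2.tsum_eq, h3]
  exact h4.hasSum

lemma Conv.const {R : ℝ} (c : ℂ) : Conv R (PowerSeries.C c) (fun _ => c) := by
  intro q _
  have := hasSum_single (f := fun n => coeff n (PowerSeries.C c) * q ^ n) 0 (by
    intro n hn
    simp [PowerSeries.coeff_C, hn])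
  simpa using this

lemma Conv.one {R : ℝ} : Conv R 1 (fun _ => 1) := by
  simpa using Conv.const (R := R) 1

lemma Conv.X {R : ℝ} : Conv R PowerSeries.X (fun q => q) := by
  intro q _
  have := hasSum_single (f := fun n => coeff n (PowerSeries.X : PowerSeries ℂ) * q ^ n) 1 (by
    intro n hn
    simp [PowerSeries.coeff_X, hn])
  simpa using this

lemma Conv.pow {R : ℝ} {P : PowerSeries ℂ} {f : ℂ → ℂ} (hP : Conv R P f) (n : ℕ) :
    Conv R (P ^ n) (fun q => f q ^ n) := by
  induction n with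
  | zero => simpa using Conv.one
  | succ n ih => simpa [pow_succ] using ih.mul hP

lemma Conv.sum {R : ℝ} {ι : Type*} (s : Finset ι) {P : ι → PowerSeries ℂ} {f : ι → ℂ → ℂ}
    (hP : ∀ i ∈ s, Conv R (P i) (f i)) :
    Conv R (∑ i ∈ s, P i) (fun q => ∑ i ∈ s, f i q) := by
  classical
  induction s using Finset.induction_on with
  | empty => simpa using Conv.const (R := R) 0
  | insert a s ha ih =>
    simp only [Finset.sum_insert ha]
    exact (hP a (Finset.mem_insert_self _ _)).add (ih fun i hi => hP i (Finset.mem_insert_of_mem hi))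

lemma Conv.congr {R : ℝ} {P : PowerSeries ℂ} {f g : ℂ → ℂ} (hP : Conv R P f)
    (h : ∀ q, ‖q‖ < R → f q = g q) : Conv R P g := fun q hq => h q hq ▸ hP q hq

/-- the formal multilinear series of a power series -/
noncomputable def fms (P : PowerSeries ℂ) : FormalMultilinearSeries ℂ ℂ ℂ :=
  FormalMultilinearSeries.ofScalars ℂ (fun n => coeff n P)

lemma norm_fms (P : PowerSeries ℂ) (n : ℕ) : ‖fms P n‖ = ‖coeff n P‖ := by
  unfold fms
  exact FormalMultilinearSeries.ofScalars_norm ℂ _ n

lemma Conv.hasFPowerSeriesOnBall {R : ℝ} (hR : 0 < R) {P : PowerSeries ℂ} {f : ℂ → ℂ}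
    (hP : Conv R P f) : HasFPowerSeriesOnBall f (fms P) 0 (ENNReal.ofReal R) := by
  refine ⟨?_, by simpa using hR, ?_⟩
  · apply ENNReal.le_of_forall_nnreal_lt
    intro r hr
    have hr' : (r : ℝ) < R := by
      have := (ENNReal.lt_ofReal_iff_toReal_lt ENNReal.coe_ne_top).1 hr
      simpa using this
    have h1 := (hP (r : ℂ) (by simpa using hr')).summable.norm
    refine FormalMultilinearSeries.le_radius_of_summable_norm _ ?_
    refine h1.congr fun n => ?_
    rw [norm_fms, norm_mul, norm_pow]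
    simp
  · intro y hy
    have hy' : ‖y‖ < R := by
      rw [Metric.mem_eball, edist_zero_right] at hy
      have := (ENNReal.lt_ofReal_iff_toReal_lt (by simp)).1 hy
      simpa using this
    have := hP y hy'
    simp only [zero_add]
    have e : (fun n => (fms P n) fun _ => y) = fun n => coeff n P * y ^ n := by
      funext n
      unfold fms
      rw [FormalMultilinearSeries.ofScalars_apply_eq]
      simp [smul_eq_mul]
    rw [e]
    exact this

lemma Conv.differentiableOn {R : ℝ} (hR : 0 < R) {P : PowerSeries ℂ} {f : ℂ → ℂ}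
    (hP : Conv R P f) : DifferentiableOn ℂ f (ball 0 R) := by
  have := (hP.hasFPowerSeriesOnBall hR).differentiableOn
  rwa [Metric.eball_ofReal] at this

lemma Conv.unique {R : ℝ} (hR : 0 < R) {P Q : PowerSeries ℂ} {f : ℂ → ℂ}
    (hP : Conv R P f) (hQ : Conv R Q f) : P = Q := by
  have h := (hP.hasFPowerSeriesOnBall hR).hasFPowerSeriesAt.eq_formalMultilinearSeries
    (hQ.hasFPowerSeriesOnBall hR).hasFPowerSeriesAt
  ext n
  have h2 : (fms P n) (fun _ => (1:ℂ)) = (fms Q n) (fun _ => (1:ℂ)) := by rw [h]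
  unfold fms at h2
  simpa [FormalMultilinearSeries.ofScalars_apply_eq] using h2

lemma Conv.of_differentiableOn {R : ℝ} {f : ℂ → ℂ}
    (hf : DifferentiableOn ℂ f (ball 0 R)) : ∃ P, Conv R P f := by
  refine ⟨PowerSeries.mk fun n => (n.factorial : ℂ)⁻¹ * iteratedDeriv n f 0, ?_⟩
  intro q hq
  have := Complex.hasSum_taylorSeries_on_ball (c := 0) (r := R) (f := f) hf
    (z := q) (by simpa using hq)
  have e : (fun n => coeff n (PowerSeries.mk fun n => (n.factorial : ℂ)⁻¹ * iteratedDeriv n f 0)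
      * q ^ n) = fun n : ℕ => (n.factorial : ℂ)⁻¹ • (q - 0) ^ n • iteratedDeriv n f 0 := by
    funext n
    rw [PowerSeries.coeff_mk, smul_eq_mul, smul_eq_mul, sub_zero]
    ring
  rw [e]
  exact this

lemma Conv.inv {R : ℝ} (hR : 0 < R) {P : PowerSeries ℂ} {f : ℂ → ℂ} (hP : Conv R P f)
    (h0 : ∀ q, ‖q‖ < R → f q ≠ 0) : ∃ Q, P * Q = 1 ∧ Conv R Q (fun q => (f q)⁻¹) := by
  obtain ⟨Q, hQ⟩ := Conv.of_differentiableOn (R := R) (f := fun q => (f q)⁻¹)
    ((hP.differentiableOn hR).inv (fun q hq => h0 q (by simpa using hq)))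
  refine ⟨Q, ?_, hQ⟩
  refine Conv.unique hR (hP.mul hQ) (Conv.one.congr ?_)
  intro q hq
  rw [mul_inv_cancel₀ (h0 q hq)]

lemma Conv.coeff_bound {R : ℝ} {P : PowerSeries ℂ} {f : ℂ → ℂ} (hP : Conv R P f)
    {ρ M : ℝ} (hρ : 0 < ρ) (hρR : ρ < R) (hM : ∀ q, ‖q‖ < R → ‖f q‖ ≤ M) (n : ℕ) :
    ‖coeff n P‖ * ρ ^ n ≤ M := by
  have hR : 0 < R := hρ.trans hρR
  have hd := hP.differentiableOn hR
  have h1 : ‖iteratedDeriv n f 0‖ ≤ n.factorial * M / ρ ^ n := by
    apply Complex.norm_iteratedDeriv_le_of_forall_mem_sphere_norm_le n hρ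
    · apply DifferentiableOn.diffContOnCl
      apply hd.mono
      rw [closure_ball _ hρ.ne']
      exact closedBall_subset_ball hρR
    · intro z hz
      apply hM
      rw [mem_sphere_zero_iff_norm] at hz
      rw [hz]; exact hρR
  have h2 : coeff n P = (n.factorial : ℂ)⁻¹ * iteratedDeriv n f 0 := by
    have : P = PowerSeries.mk fun n => (n.factorial : ℂ)⁻¹ * iteratedDeriv n f 0 := by
      refine Conv.unique hR hP ?_
      intro q hq
      have := Complex.hasSum_taylorSeries_on_ball (c := 0) (r := R) (f := f) hd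
        (z := q) (by simpa using hq)
      have e : (fun n => coeff n (PowerSeries.mk fun n => (n.factorial : ℂ)⁻¹ *
          iteratedDeriv n f 0) * q ^ n) =
          fun n : ℕ => (n.factorial : ℂ)⁻¹ • (q - 0) ^ n • iteratedDeriv n f 0 := by
        funext n
        rw [PowerSeries.coeff_mk, smul_eq_mul, smul_eq_mul, sub_zero]
        ring
      rw [e]
      exact this
    conv_lhs => rw [this]
    simp
  rw [h2, norm_mul, norm_inv, Complex.norm_natCast]
  have hf : (0:ℝ) < n.factorial := by exact_mod_cast n.factorial_pos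
  have hρn : 0 < ρ ^ n := by positivity
  calc (n.factorial : ℝ)⁻¹ * ‖iteratedDeriv n f 0‖ * ρ ^ n
      ≤ (n.factorial : ℝ)⁻¹ * (n.factorial * M / ρ ^ n) * ρ ^ n := by gcongr
    _ = M := by field_simp

end Pool.Agent.N280.QR
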