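import Mathlib
import Pool.Agent.N280.QR.Conv

set_option autoImplicit false

open PowerSeries Metric

namespace Pool.Agent.N280.QR

/-- the truncated continued fraction `a k - b k / (a (k+1) - b (k+1) / ⋯ a (k+N))` -/
noncomputable def cf {K : Type*} [Field K] (a b : ℕ → K) : ℕ → ℕ → K
  | 0, k => a k
  | N + 1, k => a k - b k / cf a b N (k + 1)

/-- the power series of the truncations -/
noncomputable def pT (c : ℕ → ℕ) : ℕ → ℕ → PowerSeries ℚ
  | 0, k => ∑ i ∈ Finset.range (c k), PowerSeries.X ^ i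
  | N + 1, k => ∑ i ∈ Finset.range (c k), PowerSeries.X ^ i -
      PowerSeries.X ^ (c k - 1) * (pT c N (k + 1))⁻¹

/-- the values of the truncations at a complex number -/
noncomputable def vT (c : ℕ → ℕ) (q : ℂ) : ℕ → ℕ → ℂ
  | 0, k => ∑ i ∈ Finset.range (c k), q ^ i
  | N + 1, k => ∑ i ∈ Finset.range (c k), q ^ i - q ^ (c k - 1) * (vT c q N (k + 1))⁻¹

lemma constCoeff_geom (n : ℕ) (hn : 1 ≤ n) :
    constantCoeff (∑ i ∈ Finset.range n, (PowerSeries.X : PowerSeries ℚ) ^ i) = 1 := by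
  rw [map_sum, Finset.sum_eq_single 0]
  · simp
  · intro i _ hi
    rw [map_pow, PowerSeries.constantCoeff_X, zero_pow hi]
  · intro h
    exact absurd (Finset.mem_range.2 (by omega)) h

lemma constCoeff_pT (c : ℕ → ℕ) (hc : ∀ j, 2 ≤ c j) (N k : ℕ) :
    constantCoeff (pT c N k) = 1 := by
  cases N with
  | zero => exact constCoeff_geom _ (by have := hc k; omega)
  | succ N =>
    have h := hc k
    rw [pT, map_sub, map_mul, map_pow, PowerSeries.constantCoeff_X, zero_pow (by omega),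
      constCoeff_geom _ (by omega)]
    simp

/-- the elementary step -/
lemma iter_bound {s : ℝ} (hs0 : 0 ≤ s) (hs : s ^ 2 + s ≤ 1) {q v : ℂ} (hq : ‖q‖ = s ^ 2)
    (hv : s * ‖v‖ ≤ 1) (n : ℕ) :
    ‖(∑ i ∈ Finset.range (n + 1), q ^ i + q ^ (n + 1) * v) - 1‖ ≤ s := by
  induction n generalizing v with
  | zero =>
    simp only [zero_add, Finset.range_one, Finset.sum_singleton, pow_zero, pow_one]
    rw [add_sub_cancel_left, norm_mul, hq]
    nlinarith
  | succ n ih =>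
    have h1 : s * ‖1 + q * v‖ ≤ 1 := by
      have h2 : ‖1 + q * v‖ ≤ 1 + s ^ 2 * ‖v‖ := by
        calc ‖1 + q * v‖ ≤ ‖(1:ℂ)‖ + ‖q * v‖ := norm_add_le _ _
          _ = 1 + s ^ 2 * ‖v‖ := by rw [norm_mul, hq, norm_one]
      nlinarith [norm_nonneg v]
    have h3 := ih (v := 1 + q * v) h1
    have h4 : (∑ i ∈ Finset.range (n + 1 + 1), q ^ i + q ^ (n + 1 + 1) * v) =
        ∑ i ∈ Finset.range (n + 1), q ^ i + q ^ (n + 1) * (1 + q * v) := by
      rw [Finset.sum_range_succ]; ring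
    rw [h4]; exact h3

lemma vT_bound {s : ℝ} (hs0 : 0 ≤ s) (hs : s ^ 2 + s ≤ 1) {q : ℂ} (hq : ‖q‖ = s ^ 2)
    (c : ℕ → ℕ) (hc : ∀ j, 2 ≤ c j) (N k : ℕ) : ‖vT c q N k - 1‖ ≤ s := by
  have hs1 : s < 1 := by nlinarith [sq_nonneg (s - 1)]
  induction N generalizing k with
  | zero =>
    have h := hc k
    obtain ⟨m, hm⟩ : ∃ m, c k = m + 2 := ⟨c k - 2, by omega⟩
    have h1 := iter_bound hs0 hs hq (v := 1) (by rw [norm_one, mul_one]; exact hs1.le) m
    rw [vT, hm, Finset.sum_range_succ]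
    simpa using h1
  | succ N ih =>
    have h := hc k
    obtain ⟨m, hm⟩ : ∃ m, c k = m + 2 := ⟨c k - 2, by omega⟩
    set w := vT c q N (k + 1) with hw
    have hw1 : ‖w - 1‖ ≤ s := ih (k + 1)
    have hw2 : 1 - s ≤ ‖w‖ := by
      have : ‖(1:ℂ)‖ - ‖w - 1‖ ≤ ‖w‖ := by
        have h5 := norm_sub_norm_le (1:ℂ) (1 - w)
        rw [sub_sub_cancel, norm_sub_rev 1 w] at h5
        exact h5
      rw [norm_one] at this
      linarith
    have hw0 : w ≠ 0 := by
      intro h0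
      rw [h0, norm_zero] at hw2
      linarith
    have hv : s * ‖1 - w⁻¹‖ ≤ 1 := by
      have h6 : 1 - w⁻¹ = (w - 1) / w := by field_simp
      rw [h6, norm_div]
      have hwp : 0 < ‖w‖ := by linarith
      rw [mul_div_assoc', div_le_one hwp]
      nlinarith
    have h1 := iter_bound hs0 hs hq hv m
    rw [vT, hm, Finset.sum_range_succ]
    have h7 : ∑ i ∈ Finset.range (m + 1), q ^ i + q ^ (m + 1) - q ^ (m + 2 - 1) * w⁻¹ - 1 =
        ∑ i ∈ Finset.range (m + 1), q ^ i + q ^ (m + 1) * (1 - w⁻¹) - 1 := by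
      have : m + 2 - 1 = m + 1 := by omega
      rw [this]; ring
    rw [h7]; exact h1

/-- the radius -/
noncomputable def Rs : ℝ := (3 - Real.sqrt 5) / 2

lemma Rs_pos : 0 < Rs := by
  unfold Rs
  have : Real.sqrt 5 < 3 := by
    rw [Real.sqrt_lt' (by norm_num)]; norm_num
  linarith

lemma vT_bound' {q : ℂ} (hq : ‖q‖ < Rs) (c : ℕ → ℕ) (hc : ∀ j, 2 ≤ c j) (N k : ℕ) :
    ‖vT c q N k - 1‖ < 1 := by
  have h5 : Real.sqrt 5 ^ 2 = 5 := Real.sq_sqrt (by norm_num)
  have h50 : 0 ≤ Real.sqrt 5 := Real.sqrt_nonneg 5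
  have h51 : Real.sqrt 5 < 3 := by
    rw [Real.sqrt_lt' (by norm_num)]; norm_num
  set s := Real.sqrt ‖q‖ with hs
  have hs0 : 0 ≤ s := Real.sqrt_nonneg _
  have hs2 : s ^ 2 = ‖q‖ := Real.sq_sqrt (norm_nonneg _)
  have h52 : 1 < Real.sqrt 5 := by
    rw [Real.lt_sqrt (by norm_num)]; norm_num
  have hs3 : s < (Real.sqrt 5 - 1) / 2 := by
    have : s ^ 2 < ((Real.sqrt 5 - 1) / 2) ^ 2 := by
      rw [hs2]
      have : ((Real.sqrt 5 - 1) / 2) ^ 2 = Rs := by
        unfold Rs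
        nlinarith
      rw [this]; exact hq
    exact lt_of_pow_lt_pow_left₀ 2 (by linarith) this
  have h1 : s ^ 2 + s ≤ 1 := by nlinarith
  have h2 := vT_bound hs0 h1 hs2.symm c hc N k
  have h3 : s < 1 := by nlinarith
  linarith

lemma map_pT_conv (c : ℕ → ℕ) (hc : ∀ j, 2 ≤ c j) (N k : ℕ) :
    Conv Rs (PowerSeries.map (algebraMap ℚ ℂ) (pT c N k)) (fun q => vT c q N k) := by
  have hgeom : ∀ n : ℕ, Conv Rs (PowerSeries.map (algebraMap ℚ ℂ)
      (∑ i ∈ Finset.range n, (PowerSeries.X : PowerSeries ℚ) ^ i))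
      (fun q => ∑ i ∈ Finset.range n, q ^ i) := by
    intro n
    rw [map_sum]
    refine Conv.sum _ fun i _ => ?_
    rw [map_pow, PowerSeries.map_X]
    exact Conv.X.pow i
  induction N generalizing k with
  | zero => exact hgeom _
  | succ N ih =>
    have h1 := ih (k + 1)
    have hne : ∀ q, ‖q‖ < Rs → vT c q N (k + 1) ≠ 0 := by
      intro q hq h0
      have := vT_bound' hq c hc N (k + 1)
      rw [h0, zero_sub, norm_neg, norm_one] at this
      exact lt_irrefl _ this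
    obtain ⟨Q, hQ1, hQ2⟩ := h1.inv Rs_pos hne
    have hinv : pT c N (k + 1) * (pT c N (k + 1))⁻¹ = 1 :=
      PowerSeries.mul_inv_cancel _ (by rw [constCoeff_pT c hc]; exact one_ne_zero)
    have hQ : PowerSeries.map (algebraMap ℚ ℂ) (pT c N (k + 1))⁻¹ = Q := by
      have h2 : PowerSeries.map (algebraMap ℚ ℂ) (pT c N (k + 1)) *
          PowerSeries.map (algebraMap ℚ ℂ) (pT c N (k + 1))⁻¹ = 1 := by
        rw [← map_mul, hinv, map_one]
      calc PowerSeries.map (algebraMap ℚ ℂ) (pT c N (k + 1))⁻¹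
          = PowerSeries.map (algebraMap ℚ ℂ) (pT c N (k + 1))⁻¹ *
            (PowerSeries.map (algebraMap ℚ ℂ) (pT c N (k + 1)) * Q) := by rw [hQ1, mul_one]
        _ = (PowerSeries.map (algebraMap ℚ ℂ) (pT c N (k + 1)) *
          PowerSeries.map (algebraMap ℚ ℂ) (pT c N (k + 1))⁻¹) * Q := by ring
        _ = Q := by rw [h2, one_mul]
    rw [pT, map_sub, map_mul, hQ, map_pow, PowerSeries.map_X]
    exact (hgeom _).sub ((Conv.X.pow _).mul hQ2)

lemma pT_coeff_bound (c : ℕ → ℕ) (hc : ∀ j, 2 ≤ c j) (N k : ℕ) {ρ : ℝ} (hρ : 0 < ρ)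
    (hρR : ρ < Rs) (n : ℕ) : ‖((coeff n (pT c N k) : ℚ) : ℂ)‖ * ρ ^ n ≤ 2 := by
  have h := (map_pT_conv c hc N k).coeff_bound hρ hρR (M := 2) (by
    intro q hq
    have h1 := vT_bound' hq c hc N k
    calc ‖vT c q N k‖ = ‖(vT c q N k - 1) + 1‖ := by rw [sub_add_cancel]
      _ ≤ ‖vT c q N k - 1‖ + ‖(1:ℂ)‖ := norm_add_le _ _
      _ ≤ 2 := by rw [norm_one]; linarith) n
  simpa using h

/-- the truncations converge `q`-adically -/
lemma pT_sub_dvd (c : ℕ → ℕ) (hc : ∀ j, 2 ≤ c j) (N k : ℕ) :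
    (PowerSeries.X : PowerSeries ℚ) ^ (N + 1) ∣ pT c (N + 1) k - pT c N k := by
  induction N generalizing k with
  | zero =>
    have h := hc k
    rw [pT, pT]
    have : (∑ i ∈ Finset.range (c k), (PowerSeries.X : PowerSeries ℚ) ^ i) -
        PowerSeries.X ^ (c k - 1) * (pT c 0 (k + 1))⁻¹ -
        ∑ i ∈ Finset.range (c k), (PowerSeries.X : PowerSeries ℚ) ^ i =
        PowerSeries.X ^ (c k - 1) * (-(pT c 0 (k + 1))⁻¹) := by ring
    rw [pT] at this ⊢
    rw [this]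
    exact (pow_dvd_pow _ (by omega)).mul_right _
  | succ N ih =>
    have h := hc k
    obtain ⟨u, hu⟩ := ih (k + 1)
    have h1 : pT c (N + 1) (k + 1) * (pT c (N + 1) (k + 1))⁻¹ = 1 :=
      PowerSeries.mul_inv_cancel _ (by rw [constCoeff_pT c hc]; exact one_ne_zero)
    have h2 : pT c N (k + 1) * (pT c N (k + 1))⁻¹ = 1 :=
      PowerSeries.mul_inv_cancel _ (by rw [constCoeff_pT c hc]; exact one_ne_zero)
    have h3 : pT c (N + 1 + 1) k - pT c (N + 1) k = PowerSeries.X ^ (c k - 1) *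
        ((pT c (N + 1) (k + 1) - pT c N (k + 1)) *
          ((pT c (N + 1) (k + 1))⁻¹ * (pT c N (k + 1))⁻¹)) := by
      rw [pT, pT.eq_2 c k N]
      set A := pT c (N + 1) (k + 1)
      set B := pT c N (k + 1)
      linear_combination (PowerSeries.X ^ (c k - 1) * A⁻¹) * h2 -
        (PowerSeries.X ^ (c k - 1) * B⁻¹) * h1
    rw [h3, hu]
    have h4 : (PowerSeries.X : PowerSeries ℚ) ^ (N + 1 + 1) ∣
        PowerSeries.X ^ (c k - 1) * PowerSeries.X ^ (N + 1) := by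
      rw [← pow_add]
      exact pow_dvd_pow _ (by omega)
    have h5 : (PowerSeries.X : PowerSeries ℚ) ^ (c k - 1) * (PowerSeries.X ^ (N + 1) * u *
        ((pT c (N + 1) (k + 1))⁻¹ * (pT c N (k + 1))⁻¹)) =
        (PowerSeries.X ^ (c k - 1) * PowerSeries.X ^ (N + 1)) * (u *
        ((pT c (N + 1) (k + 1))⁻¹ * (pT c N (k + 1))⁻¹)) := by ring
    rw [h5]
    exact h4.mul_right _

lemma pT_coeff_stable (c : ℕ → ℕ) (hc : ∀ j, 2 ≤ c j) (k n N : ℕ) (h : n ≤ N) :
    coeff n (pT c N k) = coeff n (pT c n k) := by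
  induction N, h using Nat.le_induction with
  | base => rfl
  | succ N hN ih =>
    rw [← ih]
    have h1 := pT_sub_dvd c hc N k
    rw [PowerSeries.X_pow_dvd_iff] at h1
    have := h1 n (by omega)
    rw [map_sub, sub_eq_zero] at this
    exact this

end Pool.Agent.N280.QR
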