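import Mathlib
import Pool.Agent.N280.QR.Trunc

set_option autoImplicit false

open Filter Topology

namespace Pool.Agent.N280.QR

/-- complete quotients of the negative continued fraction -/
noncomputable def tl (x : ℝ) : ℕ → ℝ
  | 0 => x
  | n + 1 => 1 / ((⌊tl x n⌋₊ : ℝ) + 1 - tl x n)

/-- digits of the negative continued fraction -/
noncomputable def dg (x : ℝ) (n : ℕ) : ℕ := ⌊tl x n⌋₊ + 1

lemma floor_gap {t : ℝ} (ht : 1 ≤ t) : 0 < (⌊t⌋₊ : ℝ) + 1 - t ∧ (⌊t⌋₊ : ℝ) + 1 - t ≤ 1 := by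
  have h1 := Nat.lt_floor_add_one t
  have h2 := Nat.floor_le (show (0:ℝ) ≤ t by linarith)
  constructor <;> linarith

lemma one_le_tl {x : ℝ} (hx : 1 ≤ x) (n : ℕ) : 1 ≤ tl x n := by
  induction n with
  | zero => exact hx
  | succ n ih =>
    rw [tl]
    obtain ⟨h1, h2⟩ := floor_gap ih
    rw [le_div_iff₀ h1]; linarith

lemma two_le_dg {x : ℝ} (hx : 1 ≤ x) (n : ℕ) : 2 ≤ dg x n := by
  have h := one_le_tl hx n
  have : 1 ≤ ⌊tl x n⌋₊ := Nat.le_floor (by simpa using h)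
  unfold dg; omega

/-- real truncations -/
noncomputable abbrev rT (c : ℕ → ℕ) (N k : ℕ) : ℝ := cf (fun j => (c j : ℝ)) (fun _ => (1:ℝ)) N k

lemma rT_succ (c : ℕ → ℕ) (N k : ℕ) : rT c (N + 1) k = c k - 1 / rT c N (k + 1) := rfl

lemma one_le_rT {c : ℕ → ℕ} (hc : ∀ j, 2 ≤ c j) (N k : ℕ) : 1 ≤ rT c N k := by
  have h2 : ∀ k, (2:ℝ) ≤ c k := fun k => by exact_mod_cast hc k
  induction N generalizing k with
  | zero => show (1:ℝ) ≤ (c k : ℝ); linarith [h2 k]
  | succ N ih =>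
    rw [rT_succ]
    have h3 := ih (k + 1)
    have h4 : 1 / rT c N (k + 1) ≤ 1 := by
      rw [div_le_one (by linarith)]; exact h3
    linarith [h2 k]

lemma rT_le {c : ℕ → ℕ} (hc : ∀ j, 2 ≤ c j) (N k : ℕ) : rT c N k ≤ c k := by
  cases N with
  | zero => exact le_refl _
  | succ N =>
    rw [rT_succ]
    have h3 := one_le_rT hc N (k + 1)
    have : 0 < 1 / rT c N (k + 1) := by positivity
    linarith

lemma rT_approx {x : ℝ} (hx : 1 ≤ x) (N k : ℕ) :
    0 ≤ rT (dg x) N k - tl x k ∧ rT (dg x) N k - tl x k ≤ 1 / ((N : ℝ) + 1) := by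
  induction N generalizing k with
  | zero =>
    have h := floor_gap (one_le_tl hx k)
    show 0 ≤ ((dg x k : ℕ) : ℝ) - tl x k ∧ ((dg x k : ℕ) : ℝ) - tl x k ≤ _
    unfold dg
    push_cast
    constructor
    · linarith [h.1]
    · simpa using h.2
  | succ N ih =>
    obtain ⟨h1, h2⟩ := ih (k + 1)
    have h3 := one_le_tl hx (k + 1)
    have hg := floor_gap (one_le_tl hx k)
    set e := rT (dg x) N (k + 1) - tl x (k + 1) with he
    set t := tl x (k + 1) with ht
    have hr : rT (dg x) N (k + 1) = t + e := by rw [he]; ring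
    have h4 : tl x k = (dg x k : ℝ) - 1 / t := by
      rw [ht, tl]
      unfold dg
      push_cast
      rw [one_div_one_div]; ring
    have h5 : rT (dg x) (N + 1) k - tl x k = e / (t * (t + e)) := by
      rw [rT_succ, hr, h4]
      have : t ≠ 0 := by linarith
      have : t + e ≠ 0 := by linarith
      field_simp
      ring
    rw [h5]
    have htp : 0 < t * (t + e) := by positivity
    constructor
    · positivity
    · have hN : (0:ℝ) < (N:ℝ) + 1 := by positivity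
      rw [le_div_iff₀ hN] at h2
      push_cast
      rw [div_le_div_iff₀ htp (by positivity)]
      nlinarith [mul_nonneg h1 h1, mul_nonneg h1 (show (0:ℝ) ≤ t - 1 by linarith),
        mul_nonneg (show (0:ℝ) ≤ t - 1 by linarith) (show (0:ℝ) ≤ t - 1 by linarith)]

lemma rT_tendsto {x : ℝ} (hx : 1 ≤ x) : Tendsto (fun N => rT (dg x) N 0) atTop (𝓝 x) := by
  have h1 : Tendsto (fun N : ℕ => 1 / ((N : ℝ) + 1)) atTop (𝓝 0) :=
    tendsto_one_div_add_atTop_nhds_zero_nat
  have h2 : Tendsto (fun N => rT (dg x) N 0 - x) atTop (𝓝 0) :=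
    tendsto_of_tendsto_of_tendsto_of_le_of_le tendsto_const_nhds h1
      (fun N => (rT_approx hx N 0).1) (fun N => (rT_approx hx N 0).2)
  have h3 := h2.add_const x
  simpa using h3

lemma cf_shift {K : Type*} [Field K] (a b : ℕ → K) (m N k : ℕ) :
    cf (fun j => a (j + m)) (fun j => b (j + m)) N k = cf a b N (k + m) := by
  induction N generalizing k with
  | zero => rfl
  | succ N ih =>
    rw [cf, cf, ih, add_right_comm]

/-- `c` is the expansion of `x` -/
def IsExp (x : ℝ) (c : ℕ → ℕ) : Prop :=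
  (∀ j, 2 ≤ c j) ∧ Tendsto (fun N => rT c N 0) atTop (𝓝 x)

lemma IsExp.step {x : ℝ} {c : ℕ → ℕ} (h : IsExp x c) :
    c 0 = ⌊x⌋₊ + 1 ∧ IsExp (1 / ((⌊x⌋₊ : ℝ) + 1 - x)) (fun j => c (j + 1)) := by
  obtain ⟨hc, hx⟩ := h
  have hx1 : 1 ≤ x := ge_of_tendsto' hx (fun N => one_le_rT hc N 0)
  have h1 : Tendsto (fun N => rT c (N + 1) 0) atTop (𝓝 x) := hx.comp (tendsto_add_atTop_nat 1)
  have h2 : Tendsto (fun N => (c 0 : ℝ) - rT c (N + 1) 0) atTop (𝓝 ((c 0 : ℝ) - x)) :=
    h1.const_sub _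
  have h3 : ∀ N, (c 0 : ℝ) - rT c (N + 1) 0 = 1 / rT c N 1 := by
    intro N; rw [rT_succ]; ring
  simp_rw [h3] at h2
  have h4 : (c 0 : ℝ) - x ≤ 1 := le_of_tendsto' h2 fun N => by
    have := one_le_rT hc N 1
    rw [div_le_one (by linarith)]; exact this
  have hc1 : (0:ℝ) < c 1 := by have := hc 1; exact_mod_cast (by omega : 0 < c 1)
  have h5 : 1 / (c 1 : ℝ) ≤ (c 0 : ℝ) - x := ge_of_tendsto' h2 fun N => by
    have h6 := one_le_rT hc N 1
    exact one_div_le_one_div_of_le (by linarith) (rT_le hc N 1)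
  have h6 : 0 < (c 0 : ℝ) - x := lt_of_lt_of_le (by positivity) h5
  have hc0 : ((c 0 - 1 : ℕ) : ℝ) = (c 0 : ℝ) - 1 := by
    rw [Nat.cast_sub (by have := hc 0; omega)]; simp
  have h7 : ⌊x⌋₊ = c 0 - 1 := by
    rw [Nat.floor_eq_iff (by linarith)]
    rw [hc0]
    constructor <;> linarith
  have h8 : c 0 = ⌊x⌋₊ + 1 := by have := hc 0; omega
  refine ⟨h8, fun j => hc _, ?_⟩
  have h9 : (c 0 : ℝ) = (⌊x⌋₊ : ℝ) + 1 := by rw [h8]; push_cast; ring
  rw [h9] at h2 h6
  have h10 := h2.inv₀ h6.ne'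
  rw [one_div]
  refine h10.congr fun N => ?_
  rw [one_div, inv_inv]
  exact (cf_shift (fun j => (c j : ℝ)) (fun _ => (1:ℝ)) 1 N 0).symm

lemma IsExp.eq_dg {x : ℝ} {c : ℕ → ℕ} (h : IsExp x c) : c = dg x := by
  have key : ∀ n, IsExp (tl x n) (fun j => c (j + n)) := by
    intro n
    induction n with
    | zero => exact h
    | succ n ih =>
      have := ih.step.2
      rw [tl]
      convert this using 1
      funext j
      congr 1
      ring
  funext n
  have := (key n).step.1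
  simp only [zero_add] at this
  exact this

lemma isExp_dg {x : ℝ} (hx : 1 ≤ x) : IsExp x (dg x) := ⟨two_le_dg hx, rT_tendsto hx⟩

lemma tl_add_one {x : ℝ} (hx : 1 ≤ x) (n : ℕ) : tl (x + 1) (n + 1) = tl x (n + 1) := by
  induction n with
  | zero =>
    rw [tl, tl, tl, tl, Nat.floor_add_one (by linarith)]
    push_cast
    ring_nf
  | succ n ih =>
    rw [tl, ih, ← tl]

lemma dg_add_one_zero {x : ℝ} (hx : 1 ≤ x) : dg (x + 1) 0 = dg x 0 + 1 := by
  unfold dg
  rw [tl, tl, Nat.floor_add_one (by linarith)]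

lemma dg_add_one_succ {x : ℝ} (hx : 1 ≤ x) (n : ℕ) : dg (x + 1) (n + 1) = dg x (n + 1) := by
  unfold dg
  rw [tl_add_one hx]

end Pool.Agent.N280.QR
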