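import Mathlib
import Pool.Agent.N280.QR.Real

set_option autoImplicit false

open Filter Topology

namespace Pool.Agent.N280.QR

/-- the variable -/
noncomputable def qv : LaurentSeries ℚ := HahnSeries.single (1 : ℤ) (1 : ℚ)

/-- `[n]_q` -/
noncomputable def qI (n : ℤ) : LaurentSeries ℚ := (1 - qv ^ n) / (1 - qv)

/-- coercion of power series -/
noncomputable abbrev toL (p : PowerSeries ℚ) : LaurentSeries ℚ := HahnSeries.ofPowerSeries ℤ ℚ p

lemma toL_X : toL PowerSeries.X = qv := by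
  unfold toL qv
  exact HahnSeries.ofPowerSeries_X

lemma qv_ne_zero : qv ≠ 0 := by
  unfold qv
  exact HahnSeries.single_ne_zero one_ne_zero

lemma coeff_qv_mul (A : LaurentSeries ℚ) (n : ℤ) : (qv * A).coeff n = A.coeff (n - 1) := by
  have := HahnSeries.coeff_single_mul_add (r := (1:ℚ)) (x := A) (a := n - 1) (b := (1:ℤ))
  rw [sub_add_cancel, one_mul] at this
  exact this

lemma one_sub_qv_ne_zero : (1 : LaurentSeries ℚ) - qv ≠ 0 := by
  intro h
  have h1 := congrArg (fun A : LaurentSeries ℚ => A.coeff 0) h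
  simp [qv, HahnSeries.coeff_single_of_ne] at h1

lemma qI_natCast (n : ℕ) : qI n = ∑ i ∈ Finset.range n, qv ^ i := by
  unfold qI
  rw [div_eq_iff one_sub_qv_ne_zero, zpow_natCast]
  have := geom_sum_mul_neg qv n
  rw [this]

lemma toL_geom (n : ℕ) : toL (∑ i ∈ Finset.range n, PowerSeries.X ^ i) = qI n := by
  rw [qI_natCast]
  unfold toL
  rw [map_sum]
  refine Finset.sum_congr rfl fun i _ => ?_
  rw [map_pow]
  congr 1
  exact toL_X

lemma toL_inv (p : PowerSeries ℚ) (hp : PowerSeries.constantCoeff p ≠ 0) :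
    toL p⁻¹ = (toL p)⁻¹ := by
  have h : toL p * toL p⁻¹ = 1 := by
    unfold toL
    rw [← map_mul, PowerSeries.mul_inv_cancel _ hp, map_one]
  exact (inv_eq_of_mul_eq_one_right h).symm

lemma cf_eq_toL {c : ℕ → ℕ} (hc : ∀ j, 2 ≤ c j) (N k : ℕ) :
    cf (fun j => qI (c j)) (fun j => qv ^ (c j - 1)) N k = toL (pT c N k) := by
  induction N generalizing k with
  | zero =>
    show qI (c k) = toL (pT c 0 k)
    rw [pT, toL_geom]
  | succ N ih =>
    rw [cf, ih, pT]
    have h1 : toL (∑ i ∈ Finset.range (c k), PowerSeries.X ^ i -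
        PowerSeries.X ^ (c k - 1) * (pT c N (k + 1))⁻¹) =
        toL (∑ i ∈ Finset.range (c k), PowerSeries.X ^ i) -
        toL PowerSeries.X ^ (c k - 1) * toL (pT c N (k + 1))⁻¹ := by
      unfold toL
      rw [map_sub, map_mul, map_pow]
    rw [h1, toL_geom, toL_X, toL_inv _ (by rw [constCoeff_pT c hc]; exact one_ne_zero)]
    rw [div_eq_mul_inv]

/-- limit power series for `x ≥ 1` -/
noncomputable def qr (x : ℝ) : PowerSeries ℚ :=
  PowerSeries.mk fun n => PowerSeries.coeff n (pT (dg x) n 0)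

lemma coeff_toL_nat (p : PowerSeries ℚ) (n : ℕ) : (toL p).coeff (n : ℤ) = PowerSeries.coeff n p :=
  LaurentSeries.coeff_coe_powerSeries p n

lemma coeff_toL_neg (p : PowerSeries ℚ) (n : ℤ) (hn : n < 0) : (toL p).coeff n = 0 := by
  unfold toL
  rw [HahnSeries.ofPowerSeries_apply]
  refine HahnSeries.embDomain_of_notMem_range ?_
  rintro ⟨m, hm⟩
  simp at hm
  omega

lemma coeff_conv {x : ℝ} (hx : 1 ≤ x) (n : ℤ) :
    ∀ᶠ N in atTop, (toL (pT (dg x) N 0)).coeff n = (toL (qr x)).coeff n := by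
  rcases lt_or_ge n 0 with hn | hn
  · exact Eventually.of_forall fun N => by rw [coeff_toL_neg _ _ hn, coeff_toL_neg _ _ hn]
  · obtain ⟨m, rfl⟩ := Int.eq_ofNat_of_zero_le hn
    filter_upwards [eventually_ge_atTop m] with N hN
    rw [coeff_toL_nat, coeff_toL_nat, qr, PowerSeries.coeff_mk]
    exact pT_coeff_stable _ (two_le_dg hx) 0 m N hN

lemma pT_congr {c c' : ℕ → ℕ} (N k : ℕ) (h : ∀ j, k ≤ j → c j = c' j) :
    pT c N k = pT c' N k := by
  induction N generalizing k with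
  | zero => rw [pT, pT, h k le_rfl]
  | succ N ih => rw [pT, pT, h k le_rfl, ih (k + 1) (fun j hj => h j (by omega))]

lemma pT_add_one {x : ℝ} (hx : 1 ≤ x) (N : ℕ) :
    pT (dg (x + 1)) N 0 = 1 + PowerSeries.X * pT (dg x) N 0 := by
  have hs : ∀ n, ∑ i ∈ Finset.range (n + 1), (PowerSeries.X : PowerSeries ℚ) ^ i =
      1 + PowerSeries.X * ∑ i ∈ Finset.range n, (PowerSeries.X : PowerSeries ℚ) ^ i := by
    intro n
    rw [Finset.sum_range_succ', Finset.mul_sum, pow_zero, add_comm]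
    congr 1
    refine Finset.sum_congr rfl fun i _ => ?_
    rw [pow_succ, mul_comm]
  have h2 := two_le_dg hx 0
  cases N with
  | zero => rw [pT, pT, dg_add_one_zero hx, hs]
  | succ N =>
    rw [pT, pT, dg_add_one_zero hx, hs, pT_congr N 1 (c := dg (x + 1)) (c' := dg x) ?_]
    · have : (PowerSeries.X : PowerSeries ℚ) ^ (dg x 0 + 1 - 1) =
          PowerSeries.X * PowerSeries.X ^ (dg x 0 - 1) := by
        rw [← pow_succ']; congr 1
      rw [this, zero_add]
      ring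
    · intro j hj
      obtain ⟨i, rfl⟩ : ∃ i, j = i + 1 := ⟨j - 1, by omega⟩
      exact dg_add_one_succ hx i

lemma qr_add_one {x : ℝ} (hx : 1 ≤ x) : qr (x + 1) = 1 + PowerSeries.X * qr x := by
  ext n
  rw [qr, PowerSeries.coeff_mk, pT_add_one hx]
  cases n with
  | zero => simp
  | succ n =>
    rw [map_add, map_add, PowerSeries.coeff_succ_X_mul, PowerSeries.coeff_succ_X_mul, qr,
      PowerSeries.coeff_mk, pT_coeff_stable _ (two_le_dg hx) 0 n (n + 1) (by omega)]

/-- the shifted value -/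
noncomputable def G (x : ℝ) (m : ℕ) : LaurentSeries ℚ :=
  (qv ^ m)⁻¹ * (toL (qr (x + m)) - qI m)

lemma G_succ {x : ℝ} {m : ℕ} (h : 1 ≤ x + m) : G x (m + 1) = G x m := by
  unfold G
  have h1 : toL (qr (x + ((m + 1 : ℕ) : ℝ))) = 1 + qv * toL (qr (x + m)) := by
    have : x + ((m + 1 : ℕ) : ℝ) = (x + m) + 1 := by push_cast; ring
    rw [this, qr_add_one h]
    unfold toL
    rw [map_add, map_mul, map_one]
    congr 2
    exact toL_X
  have h2 : qI ((m + 1 : ℕ) : ℤ) = 1 + qv * qI m := by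
    rw [qI_natCast, qI_natCast, Finset.sum_range_succ', Finset.mul_sum, pow_zero, add_comm]
    congr 1
    refine Finset.sum_congr rfl fun i _ => ?_
    rw [pow_succ, mul_comm]
  rw [h1, h2, pow_succ]
  have := qv_ne_zero
  field_simp
  ring

lemma G_eq {x : ℝ} {m : ℕ} (h : 1 ≤ x + m) (j : ℕ) : G x (m + j) = G x m := by
  induction j with
  | zero => rfl
  | succ j ih =>
    rw [← add_assoc, G_succ, ih]
    push_cast
    have : (0:ℝ) ≤ j := Nat.cast_nonneg j
    linarith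

/-- the shift index -/
noncomputable def sh (x : ℝ) : ℕ := ⌈1 - x⌉₊

lemma le_sh (x : ℝ) : 1 ≤ x + sh x := by
  have := Nat.le_ceil (1 - x)
  unfold sh; linarith

/-- the `q`-deformed real numbers -/
noncomputable def FF (x : ℝ) : LaurentSeries ℚ := G x (sh x)

lemma FF_eq {x : ℝ} {m : ℕ} (h : 1 ≤ x + m) : FF x = G x m := by
  unfold FF
  have h1 : sh x ≤ m := by
    unfold sh
    rw [Nat.ceil_le]; linarith
  obtain ⟨j, rfl⟩ := Nat.exists_eq_add_of_le h1
  exact (G_eq (le_sh x) j).symm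

lemma FF_of_one_le {x : ℝ} (hx : 1 ≤ x) : FF x = toL (qr x) := by
  rw [FF_eq (m := 0) (by simpa using hx)]
  unfold G
  rw [qI_natCast]
  simp

lemma FF_shift (x : ℝ) : FF (x - 1) = qv⁻¹ * (FF x - 1) := by
  have h := le_sh x
  set m := sh x with hm
  have h1 : (1:ℝ) ≤ (x - 1) + ((m + 1 : ℕ) : ℝ) := by push_cast; linarith
  rw [FF_eq h1, FF_eq h]
  unfold G
  have h2 : x - 1 + ((m + 1 : ℕ) : ℝ) = x + m := by push_cast; ring
  have h3 : qI ((m + 1 : ℕ) : ℤ) = qI m + qv ^ m := by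
    rw [qI_natCast, qI_natCast, Finset.sum_range_succ]
  rw [h2, h3, pow_succ]
  have := qv_ne_zero
  field_simp
  ring

/-- good bound -/
def Good (A : LaurentSeries ℚ) : Prop :=
  ∀ ρ : ℝ, 0 < ρ → ρ < Rs → ∃ C : ℝ, ∀ n : ℕ, ‖((A.coeff (n : ℤ) : ℚ) : ℂ)‖ * ρ ^ n ≤ C

lemma good_of_one_le {x : ℝ} (hx : 1 ≤ x) : Good (FF x) := by
  intro ρ h0 h1
  refine ⟨2, fun n => ?_⟩
  rw [FF_of_one_le hx, coeff_toL_nat, qr, PowerSeries.coeff_mk]
  exact pT_coeff_bound _ (two_le_dg hx) n 0 h0 h1 n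

lemma Good.shift {A : LaurentSeries ℚ} (h : Good A) : Good (qv⁻¹ * (A - 1)) := by
  intro ρ h0 h1
  obtain ⟨C, hC⟩ := h ρ h0 h1
  refine ⟨C / ρ, fun n => ?_⟩
  have h2 : (qv⁻¹ * (A - 1)).coeff (n : ℤ) = A.coeff ((n + 1 : ℕ) : ℤ) := by
    have h3 := coeff_qv_mul (qv⁻¹ * (A - 1)) ((n : ℤ) + 1)
    rw [← mul_assoc, mul_inv_cancel₀ qv_ne_zero, one_mul, add_sub_cancel_right] at h3
    rw [← h3, HahnSeries.coeff_sub, HahnSeries.coeff_one, if_neg (by omega), sub_zero]
    push_cast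
    rfl
  rw [h2, le_div_iff₀ h0]
  have := hC (n + 1)
  rw [pow_succ] at this
  calc _ = ‖((A.coeff ((n + 1 : ℕ) : ℤ) : ℚ) : ℂ)‖ * (ρ ^ n * ρ) := by ring
    _ ≤ C := this

lemma good_FF (x : ℝ) : Good (FF x) := by
  have key : ∀ (m : ℕ) (x : ℝ), 1 ≤ x + m → Good (FF x) := by
    intro m
    induction m with
    | zero => intro x hx; exact good_of_one_le (by simpa using hx)
    | succ m ih =>
      intro x hx
      have h1 := (ih (x + 1) (by push_cast at hx; linarith)).shift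
      rw [← FF_shift, add_sub_cancel_right] at h1
      exact h1
  exact key (sh x) x (le_sh x)

/-- radius of convergence of (the power series part of) a Laurent series -/
noncomputable def rad (A : LaurentSeries ℚ) : ENNReal :=
  (FormalMultilinearSeries.ofScalars ℂ (fun n : ℕ => ((A.coeff (n : ℤ) : ℚ) : ℂ))).radius

lemma Good.rad_ge {A : LaurentSeries ℚ} (h : Good A) : ENNReal.ofReal Rs ≤ rad A := by
  apply ENNReal.le_of_forall_nnreal_lt
  intro r hr
  have hr' : (r : ℝ) < Rs := by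
    have := (ENNReal.lt_ofReal_iff_toReal_lt ENNReal.coe_ne_top).1 hr
    simpa using this
  rcases eq_or_lt_of_le r.2 with h0 | h0
  · have : r = 0 := by ext; exact h0.symm
    rw [this]; simp
  · obtain ⟨C, hC⟩ := h r h0 hr'
    refine FormalMultilinearSeries.le_radius_of_bound _ C fun n => ?_
    rw [FormalMultilinearSeries.ofScalars_norm]
    exact hC n

end Pool.Agent.N280.QR
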